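import Pool.Agent.H608R4.KM.Stm

/-! Project KM, piece CU: `u` and `v` in the four cases. -/

set_option autoImplicit false

namespace Pool.Agent.TH576.KM

open Pool.Agent.H608R4.KM

theorem cu_cases {n : ℕ} {x y : Fin n → ℝ} {k : Fin n → ZMod 4} {c s : Fin n → ℝ}
    (h : Cl n x y k c s) (i : Fin n) :
    (k i = 0 ∧ x i = c i ∧ y i = s i) ∨ (k i = 1 ∧ x i = -s i ∧ y i = c i) ∨
      (k i = 2 ∧ x i = -c i ∧ y i = -s i) ∨ (k i = 3 ∧ x i = s i ∧ y i = -c i) := by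
  have h4 : ∀ z : ZMod 4, z = 0 ∨ z = 1 ∨ z = 2 ∨ z = 3 := by decide
  rcases h4 (k i) with hi | hi | hi | hi
  · exact Or.inl ⟨hi, h.r0 i hi⟩
  · exact Or.inr (Or.inl ⟨hi, h.r1 i hi⟩)
  · exact Or.inr (Or.inr (Or.inl ⟨hi, h.r2 i hi⟩))
  · exact Or.inr (Or.inr (Or.inr ⟨hi, h.r3 i hi⟩))

theorem t_CU : S_CU := by
  intro n x y k c s h i j
  rcases cu_cases h i with ⟨hi, h1, h2⟩ | ⟨hi, h1, h2⟩ | ⟨hi, h1, h2⟩ | ⟨hi, h1, h2⟩ <;>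
  rcases cu_cases h j with ⟨hj, h3, h4⟩ | ⟨hj, h3, h4⟩ | ⟨hj, h3, h4⟩ | ⟨hj, h3, h4⟩ <;>
  unfold u v <;>
  rw [hi, hj, h1, h2, h3, h4] <;>
  refine ⟨fun h5 => ?_, fun h5 => ?_, fun h5 => ?_, fun h5 => ?_⟩ <;>
  first
    | exact absurd h5 (by decide)
    | exact ⟨by ring, by ring⟩

end Pool.Agent.TH576.KM
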